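import Pool.Agent.LKV.Stmts
import Pool.Agent.Helper72_LKU.ReachB

/-!
# Row RBV of squad LKV (MP_e0fe99_lc): reach for the inner lengths 1, b, 1, b, 1
-/

set_option autoImplicit false

namespace Pool.Agent.LKV.H72

open Pool.Agent.LCK Pool.Agent.LKT Pool.Agent.LKT.H72 Pool.Agent.LKU Pool.Agent.LKU.H72

theorem base_b (b : ℝ) (hb : 0 ≤ b) (q1 q2 p1 p2 p3 : E3) (h : Prc q1 q2 p1 p2 p3)
    (hq : ‖q2 - q1‖ = 1) (h2 : ‖p2 - p1‖ ≤ b) (h3 : ‖p3 - p1‖ ≤ b) : ‖q2 - p1‖ ≤ 1 + b := by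
  obtain ⟨s, e, f, ⟨hs, hs1, he, hf, hef⟩, h⟩ := h
  have h1 : q2 - p1 = (1 - s) • (q2 - q1) + (e • (p2 - p1) + f • (p3 - p1)) := by
    have e1 : q2 - p1 = (1 - s) • (q2 - q1) + ((q1 + s • (q2 - q1)) - p1) := by module
    rw [e1, h]; abel
  rw [h1]
  refine (norm_add_le _ _).trans ?_
  have n1 : ‖(1 - s) • (q2 - q1)‖ = 1 - s := by
    rw [norm_smul, hq, mul_one, Real.norm_eq_abs, abs_of_nonneg (by linarith)]
  have n2 : ‖e • (p2 - p1) + f • (p3 - p1)‖ ≤ e * b + f * b := by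
    refine (norm_add_le _ _).trans ?_
    rw [norm_smul, norm_smul, Real.norm_eq_abs, Real.norm_eq_abs, abs_of_nonneg he,
      abs_of_nonneg hf]
    exact add_le_add (mul_le_mul_of_nonneg_left h2 he) (mul_le_mul_of_nonneg_left h3 hf)
  have n3 : (e + f) * b ≤ 1 * b := mul_le_mul_of_nonneg_right hef hb
  have n4 : e * b + f * b = (e + f) * b := by ring
  linarith

theorem rbv : RbvStmt := by
  intro b hb x h21 h32 h43 h54 h65 m1 m2 m3 m4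
  have hb0 : 0 ≤ b := by linarith
  have hb1 : (1 : ℝ) ≤ b := by linarith
  have hp5 : Prc (x 2) (x 1) (x 3) (x 4) (x 5) := prc_flip (prc_of_meet m1)
  have hp : Prc (x 2) (x 1) (x 5) (x 6) (x 4) :=
    prc_swap (prc_rot (prc_flip (prc_of_meet m2)))
  have hr : Prc (x 5) (x 6) (x 2) (x 1) (x 3) := prc_rot (prc_of_meet m3)
  have hr2 : Prc (x 5) (x 6) (x 4) (x 3) (x 2) :=
    prc_swap (prc_rot (prc_swap (prc_of_meet m4)))
  have h12 : ‖x 1 - x 2‖ = 1 := by rw [norm_sub_rev]; exact h21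
  have h34 : ‖x 3 - x 4‖ = 1 := by rw [norm_sub_rev]; exact h43
  have h45 : ‖x 4 - x 5‖ = b := by rw [norm_sub_rev]; exact h54
  have h23 : ‖x 2 - x 3‖ = b := by rw [norm_sub_rev]; exact h32
  refine ⟨?_, ?_, ?_, ?_, ?_⟩
  · rw [norm_sub_rev]
    exact base_b b hb0 _ _ _ _ _ (prc_rot hp5) h12 (by rw [h34]; exact hb1) h54.le
  · rw [norm_sub_rev]
    exact base_b b hb0 _ _ _ _ _ hp h12 (by rw [h65]; exact hb1) h45.le
  · exact base_b b hb0 _ _ _ _ _ hr h65 (by rw [h12]; exact hb1) h32.le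
  · exact base_b b hb0 _ _ _ _ _ (prc_rot hr2) h65 (by rw [h43]; exact hb1) h23.le
  · refine reach_b b hb (x 1) (x 2) (x 3) (x 4) (x 5) (x 6) h12 h32 h43 h45 h65 ?_ ?_ ?_ ?_
    · obtain ⟨s, e, f, ⟨h1, h2, h3, h4, h5⟩, h6⟩ := hr
      exact ⟨e, f, s, h3, h4, h5, h1, h2, h6⟩
    · obtain ⟨s, e, f, ⟨h1, h2, h3, h4, h5⟩, h6⟩ := hp
      exact ⟨e, f, s, h3, h4, h5, h1, h2, h6⟩
    · obtain ⟨s, e, f, ⟨h1, h2, h3, h4, h5⟩, h6⟩ := hp5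
      exact ⟨s, e, f, h1, h2, h3, h4, h5, h6⟩
    · obtain ⟨s, e, f, ⟨h1, h2, h3, h4, h5⟩, h6⟩ := hr2
      exact ⟨s, e, f, h1, h2, h3, h4, h5, h6⟩

end Pool.Agent.LKV.H72
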